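import Pool.Agent.PSV.StmtsS
import Pool.Agent.Helper92_MTN.FPZ

/-! Squad PSV, row FPQ: FPZ with the explicit bound `B ^ 2`. -/

set_option autoImplicit false

namespace Pool.Agent.PSV.H56

open Matrix Pool.Agent.MT100 Pool.Agent.MT100G Pool.Agent.MT100A Pool.Agent.MT100D
  Pool.Agent.Helper78_MT Pool.Agent.MTN Pool.Agent.MTN.H92

universe u

/-- the fundamental matrix is invertible and continuous outside of the disc of radius `2 B` -/
theorem near_q (ace : AceStmt) {d : Type} [Fintype d] [DecidableEq d] {n B : ℕ} (F : Family d)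
    (hS : FSiz n B F) : (∀ ζ : ℂ, Real.log (2 * B) < ζ.re → IsUnit (GG F ζ).det) ∧
    ∀ i j, ContinuousOn (fun ζ : ℂ => GG F ζ i j) {ζ | Real.log (2 * B) < ζ.re} := by
  have hB : 1 ≤ B := le_trans (by norm_num) hS.two
  have hB' : (0 : ℝ) < B := by exact_mod_cast hB
  have hHx := fun i j => ace B (F.H i j) hB (hS.gH i j)
  have hKx := fun i j => ace B (F.K i j) hB (hS.gK i j)
  have hgood : ∀ ζ : ℂ, Real.log (2 * B) < ζ.re → ‖Complex.exp (-ζ)‖ < 1 / (2 * B) := by
    intro ζ hζ
    rw [Complex.norm_exp, Complex.neg_re]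
    calc Real.exp (-ζ.re) < Real.exp (-Real.log (2 * B)) := Real.exp_lt_exp.2 (by linarith)
      _ = 1 / (2 * B) := by
        rw [Real.exp_neg, Real.exp_log (by positivity), one_div]
  refine ⟨fun ζ hζ => ?_, fun i j => ?_⟩
  · have hn := hgood ζ hζ
    obtain ⟨x, hx⟩ : ∃ x, x = Complex.exp (-ζ) := ⟨_, rfl⟩
    rw [← hx] at hn
    have hA : ∀ i j, MT100G.H43.AC (F.H i j) x := fun i j => (hHx i j x hn).1
    have hA' : ∀ i j, MT100G.H43.AC (F.K i j) x := fun i j => (hKx i j x hn).1
    have hHK : F.H.map (fun f => evC f x) * F.K.map (fun f => evC f x) = 1 := by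
      rw [← (MT100G.H43.ac_mmul hA hA').2, F.sys.inv]
      ext i j
      rw [Matrix.map_apply, Matrix.one_apply, Matrix.one_apply]
      by_cases hij : i = j
      · rw [if_pos hij, if_pos hij]
        have := (MT100G.H43.ac_int 1 x).2
        rwa [Int.cast_one, Int.cast_one] at this
      · rw [if_neg hij, if_neg hij]
        have := (MT100G.H43.ac_int 0 x).2
        rwa [Int.cast_zero, Int.cast_zero] at this
    unfold GG
    rw [← hx, Matrix.det_mul, Matrix.det_mul]
    refine IsUnit.mul (IsUnit.mul ?_ ?_) ?_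
    · have := congrArg Matrix.det hHK
      rw [Matrix.det_mul, Matrix.det_one] at this
      exact IsUnit.of_mul_eq_one _ this
    · have := congrArg Matrix.det (MT100G.H43.eN_mul_neg F.N F.sys.nil (-ζ))
      rw [Matrix.det_mul, Matrix.det_one] at this
      exact IsUnit.of_mul_eq_one _ this
    · unfold ed
      rw [Matrix.det_diagonal, isUnit_iff_ne_zero]
      exact Finset.prod_ne_zero_iff.2 fun i _ => Complex.exp_ne_zero _
  · have he : (fun ζ : ℂ => GG F ζ i j) = fun ζ => (∑ k, evC (F.H i k) (Complex.exp (-ζ)) *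
        eN F.N (-ζ) k j) * Complex.exp ((F.δ j : ℂ) * -ζ) := by
      funext ζ
      unfold GG ed
      rw [Matrix.mul_diagonal, Matrix.mul_apply]
      rfl
    rw [he]
    refine ContinuousOn.mul ?_ (by fun_prop)
    refine continuousOn_finsetSum _ fun k _ => ContinuousOn.mul ?_ ?_
    · intro ζ hζ
      have h1 := (hHx i k (Complex.exp (-ζ)) (hgood ζ hζ)).2.2
      have h2 : ContinuousAt (fun ζ : ℂ => Complex.exp (-ζ)) ζ := by fun_prop
      exact (ContinuousAt.comp (g := evC (F.H i k)) (f := fun ζ : ℂ => Complex.exp (-ζ))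
        h1.continuousAt h2).continuousWithinAt
    · intro ζ hζ
      have h1 := MT100G.H43.eN_deriv F.N F.sys.nil (-ζ) k j
      have h2 : ContinuousAt (fun ζ : ℂ => -ζ) ζ := by fun_prop
      exact (ContinuousAt.comp (g := fun y => eN F.N y k j) (f := fun ζ : ℂ => -ζ)
        h1.continuousAt h2).continuousWithinAt

/-- FPQ -/
theorem fpq (ace : AceStmt) : FpqStmt.{u} := by
  intro n
  refine ⟨2, fun d _ _ F B hS w lev hw P R hP hInt hR hFP x y hx hy E E' V V' hF hmt hV' hFil'
    K _ _ => ?_⟩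
  obtain ⟨hdet, hcont⟩ := near_q ace F hS
  have hB : (2 : ℝ) ≤ B := by exact_mod_cast hS.two
  have hR0 : (0 : ℝ) < 2 * B := by linarith
  have hR' : 2 * (B : ℝ) ≤ R := by
    refine le_trans ?_ hR
    nlinarith
  refine H34.mt_sub (torus_sub F hP hw hR0 hdet hcont hR' hFP hx hF ?_ hy hV' hFil') K
  intro t ht u hu
  exact mt_tA hF.1 ht (uni_of hmt u hu) (MT100D.H78C.uni_iso F hF.2.1 hu)

end Pool.Agent.PSV.H56
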