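import Pool.Agent.PSV.StmtsS

/-! Squad PSV, row TRE: the size of the translate. -/

set_option autoImplicit false

namespace Pool.Agent.PSV.H56

open Matrix Polynomial Pool.Agent.MT100 Pool.Agent.MT100G Pool.Agent.MT100A Pool.Agent.MT100D
  Pool.Agent.Helper78_MT Pool.Agent.MTN

theorem gtc_mono {B B' : ℕ} {f : PowerSeries ℚ} (h : B ≤ B') (hf : GTC B f) : GTC B' f := by
  intro k
  obtain ⟨h1, D, h2, h3, h4⟩ := hf k
  refine ⟨h1.trans ?_, D, h2, h3.trans (Nat.pow_le_pow_left h _), h4⟩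
  have h5 : (B : ℚ) ≤ B' := by exact_mod_cast h
  exact pow_le_pow_left₀ (by positivity) h5 _

/-- multiplication by `1 - κ X` -/
theorem coeff_lin {κ : ℕ} {M : ℤ} {r : ℤ[X]} (hr : ∀ k, |r.coeff k| ≤ M) (k : ℕ) :
    |((1 - C (κ : ℤ) * X) * r).coeff k| ≤ (1 + κ) * M := by
  have hM : 0 ≤ M := (abs_nonneg _).trans (hr 0)
  have e : (1 - C (κ : ℤ) * X) * r = r - C (κ : ℤ) * (X * r) := by ring
  rw [e, coeff_sub, coeff_C_mul]
  have h1 : |(X * r).coeff k| ≤ M := by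
    cases k with
    | zero => simpa using hM
    | succ k =>
      rw [coeff_X_mul]
      exact hr k
  have h2 : |(κ : ℤ) * (X * r).coeff k| ≤ κ * M := by
    rw [abs_mul, abs_of_nonneg (by positivity : (0 : ℤ) ≤ κ)]
    exact mul_le_mul_of_nonneg_left h1 (by positivity)
  have h3 := hr k
  rw [abs_le] at h2 h3 ⊢
  constructor
  · linarith [h2.2, h3.1]
  · linarith [h2.1, h3.2]

theorem coeff_pow (κ m : ℕ) (k : ℕ) :
    |((1 - C (κ : ℤ) * X) ^ m : ℤ[X]).coeff k| ≤ (1 + κ) ^ m := by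
  induction m generalizing k with
  | zero =>
    rw [pow_zero, pow_zero, coeff_one]
    split_ifs <;> simp
  | succ m ih =>
    rw [pow_succ', pow_succ']
    exact coeff_lin ih k

theorem deg_lin (κ : ℕ) : (1 - C (κ : ℤ) * X : ℤ[X]).natDegree ≤ 1 := by
  refine (natDegree_sub_le _ _).trans ?_
  rw [natDegree_one]
  exact max_le (Nat.zero_le _) ((natDegree_C_mul_le _ _).trans natDegree_X_le)

theorem hmg_pb {n B κ : ℕ} {p : ℤ[X]} (hp : PB n B p) (hκ : κ ≤ B) (hB : 2 ≤ B) :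
    (hmg κ n p).natDegree ≤ n ∧
      ∀ k, |(hmg κ n p).coeff k| ≤ (n + 1) * (B * (1 + κ) ^ n) := by
  constructor
  · unfold hmg
    refine natDegree_sum_le_of_forall_le _ _ fun i hi => ?_
    rw [Finset.mem_range] at hi
    refine natDegree_mul_le.trans ?_
    have h1 : (C (p.coeff i) * X ^ i : ℤ[X]).natDegree ≤ i :=
      (natDegree_C_mul_le _ _).trans (natDegree_X_pow_le i)
    have h2 : ((1 - C (κ : ℤ) * X) ^ (n - i) : ℤ[X]).natDegree ≤ (n - i) * 1 :=
      natDegree_pow_le_of_le _ (deg_lin κ)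
    omega
  · intro k
    unfold hmg
    rw [finset_sum_coeff]
    refine (Finset.abs_sum_le_sum_abs _ _).trans ?_
    have h1 : ∀ i ∈ Finset.range (n + 1), |(C (p.coeff i) * X ^ i *
        (1 - C (κ : ℤ) * X) ^ (n - i) : ℤ[X]).coeff k| ≤ B * (1 + κ) ^ n := by
      intro i _
      rw [mul_assoc, coeff_C_mul, abs_mul]
      have h2 : |(X ^ i * (1 - C (κ : ℤ) * X) ^ (n - i) : ℤ[X]).coeff k| ≤ (1 + κ) ^ n := by
        rw [coeff_X_pow_mul']
        have h3 : (1 : ℤ) ≤ 1 + κ := by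
          have : (0 : ℤ) ≤ κ := by positivity
          linarith
        split_ifs with h
        · refine (coeff_pow κ (n - i) _).trans ?_
          exact pow_le_pow_right₀ h3 (Nat.sub_le _ _)
        · rw [abs_zero]
          positivity
      exact mul_le_mul (hp.2 i) h2 (abs_nonneg _) (by positivity)
    refine (Finset.sum_le_sum h1).trans ?_
    rw [Finset.sum_const, Finset.card_range, nsmul_eq_mul]
    push_cast
    rfl

theorem num {n B κ : ℕ} (hκ : κ ≤ B) (hB : 2 ≤ B) :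
    (1 + κ) * ((n + 1) * (B * (1 + κ) ^ n)) ≤ B ^ (3 * n + 3) := by
  have h1 : 1 + κ ≤ B ^ 2 := by nlinarith
  have h2 : n + 1 ≤ B ^ n := by
    have h3 : n + 1 ≤ 2 ^ n := Nat.lt_two_pow_self
    exact h3.trans (Nat.pow_le_pow_left hB n)
  calc (1 + κ) * ((n + 1) * (B * (1 + κ) ^ n)) ≤ B ^ 2 * (B ^ n * (B * (B ^ 2) ^ n)) :=
        Nat.mul_le_mul h1 (Nat.mul_le_mul h2 (Nat.mul_le_mul le_rfl (Nat.pow_le_pow_left h1 n)))
    _ = B ^ (3 * n + 3) := by
        rw [← pow_mul]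
        ring

theorem num' {n B κ : ℕ} (hκ : κ ≤ B) (hB : 2 ≤ B) :
    (n + 1) * (B * (1 + κ) ^ n) ≤ B ^ (3 * n + 3) := by
  refine le_trans ?_ (num (n := n) hκ hB)
  exact Nat.le_mul_of_pos_left _ (by omega)

/-- TRE -/
theorem tre (tra : TraStmt) (trb : TrbStmt) : TreStmt := by
  intro n
  obtain ⟨a, ha⟩ := trb n
  refine ⟨a + (3 * n + 3), fun d _ _ H K N δ q Bm B κ hS hκ => ?_⟩
  have hB := hS.two
  have hB1 : 1 ≤ B := by omega
  have hle1 : B ≤ B ^ (a + (3 * n + 3)) := by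
    calc B = B ^ 1 := (pow_one B).symm
      _ ≤ B ^ (a + (3 * n + 3)) := Nat.pow_le_pow_right hB1 (by omega)
  have hlea : B ^ a ≤ B ^ (a + (3 * n + 3)) := Nat.pow_le_pow_right hB1 (by omega)
  have hle3 : B ^ (3 * n + 3) ≤ B ^ (a + (3 * n + 3)) := Nat.pow_le_pow_right hB1 (by omega)
  have hleZ : ((B : ℕ) : ℤ) ≤ ((B ^ (a + (3 * n + 3)) : ℕ) : ℤ) := by exact_mod_cast hle1
  refine ⟨?_, ?_, ?_, ?_, ?_, ?_, ?_, ?_, ?_⟩
  · exact tra d H K N δ q Bm hS.sys κ n hS.hq.1 fun i j => (hS.hM i j).1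
  · exact hB.trans hle1
  · exact hS.card.trans (Nat.le_succ n)
  · obtain ⟨h1, h2⟩ := hmg_pb hS.hq hκ hB
    refine ⟨?_, fun k => ?_⟩
    · refine natDegree_mul_le.trans ?_
      have := deg_lin κ
      omega
    · refine (coeff_lin h2 k).trans ?_
      exact_mod_cast (num (n := n) hκ hB).trans hle3
  · intro i j
    obtain ⟨h1, h2⟩ := hmg_pb (hS.hM i j) hκ hB
    refine ⟨?_, fun k => ?_⟩
    · rw [Matrix.map_apply]
      omega
    · rw [Matrix.map_apply]
      refine (h2 k).trans ?_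
      exact_mod_cast (num' (n := n) hκ hB).trans hle3
  · exact fun i j => (hS.hN i j).trans hleZ
  · intro i
    refine ⟨(hS.hδ i).1.trans hle1, (hS.hδ i).2.trans ?_⟩
    exact_mod_cast hle1
  · exact fun i j => gtc_mono hlea (ha d H K N δ q Bm B κ hS hκ i j).1
  · exact fun i j => gtc_mono hlea (ha d H K N δ q Bm B κ hS hκ i j).2

end Pool.Agent.PSV.H56
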